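import Pool.Agent.Helper89.KS.Goals

/-!
# KS-ENF: the increments
-/

namespace Pool.Agent.Helper74.KS

open Finset MeasureTheory ProbabilityTheory
open Pool.Agent.Helper89.KS

theorem enf (h : ExfStmt) : EnfStmt := by
  obtain ⟨hP, hpos, hi1, hm1, hi2, hm2⟩ := h
  intro n
  have := hP
  have hPn : IsProbabilityMeasure (En n) := by unfold En; infer_instance
  have hmp : ∀ j : Fin n, MeasurePreserving (Function.eval j) (En n) ex1 := fun j => by
    unfold En; exact measurePreserving_eval (fun _ : Fin n => ex1) j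
  have hae : ∀ᵐ e ∂En n, ∀ j, 0 < e j := by
    rw [ae_all_iff]
    intro j
    exact (hmp j).quasiMeasurePreserving.ae hpos
  have hint : ∀ (j : Fin n) (g : ℝ → ℝ), Integrable g ex1 →
      Integrable (fun e : Fin n → ℝ => g (e j)) (En n) ∧
        ∫ e, g (e j) ∂En n = ∫ r, g r ∂ex1 := by
    intro j g hg
    refine ⟨(hmp j).integrable_comp_of_integrable hg, ?_⟩
    have h1 : AEStronglyMeasurable g ((En n).map (Function.eval j)) := by
      rw [(hmp j).map_eq]; exact hg.aestronglyMeasurable
    have h2 := integral_map (hmp j).measurable.aemeasurable h1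
    rw [(hmp j).map_eq] at h2
    exact h2.symm
  have hX1 : Integrable (fun r : ℝ => r - 1) ex1 := hi1.sub (integrable_const 1)
  have hX0 : ∫ r, (r - 1) ∂ex1 = 0 := by
    rw [integral_sub hi1 (integrable_const 1), hm1]; simp
  have hind : iIndepFun (fun (j : Fin n) (e : Fin n → ℝ) => e j - 1) (En n) := by
    unfold En
    exact iIndepFun_pi (X := fun (_ : Fin n) (r : ℝ) => r - 1)
      (fun _ => (measurable_id.sub_const 1).aemeasurable)
  have hprod : ∀ i j : Fin n,
      Integrable (fun e : Fin n → ℝ => (e i - 1) * (e j - 1)) (En n) ∧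
        ∫ e, (e i - 1) * (e j - 1) ∂En n = if i = j then 1 else 0 := by
    intro i j
    by_cases hij : i = j
    · subst hij
      have h3 := hint i (fun r => (r - 1) ^ 2) hi2
      simp only [hm2] at h3
      simp only [if_true, ← sq]
      exact h3
    · rw [if_neg hij]
      have hXY := hind.indepFun hij
      have ha := hint i _ hX1
      have hb := hint j _ hX1
      refine ⟨hXY.integrable_mul ha.1 hb.1, ?_⟩
      rw [hXY.integral_fun_mul_eq_mul_integral ha.1.aestronglyMeasurable
        hb.1.aestronglyMeasurable, ha.2, hb.2, hX0, zero_mul]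
  refine ⟨hPn, hae, fun j => ?_, fun J => ?_⟩
  · have h3 := hint j (fun r => r) hi1
    rw [hm1] at h3
    exact h3
  · have hex : (fun e : Fin n → ℝ => (∑ j ∈ J, (e j - 1)) ^ 2) =
        fun e => ∑ i ∈ J, ∑ j ∈ J, (e i - 1) * (e j - 1) := by
      funext e
      rw [sq, Finset.sum_mul_sum]
    rw [hex]
    refine ⟨integrable_finsetSum _ fun i _ => integrable_finsetSum _ fun j _ => (hprod i j).1,
      ?_⟩
    rw [integral_finsetSum _ fun i _ => integrable_finsetSum _ fun j _ => (hprod i j).1]
    have h5 : ∀ i ∈ J, ∫ e, ∑ j ∈ J, (e i - 1) * (e j - 1) ∂En n = 1 := by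
      intro i hi
      rw [integral_finsetSum _ fun j _ => (hprod i j).1]
      simp only [(hprod i _).2]
      rw [Finset.sum_ite_eq J i, if_pos hi]
    rw [Finset.sum_congr rfl h5]
    simp

end Pool.Agent.Helper74.KS
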