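import Pool.Agent.Helper75.KS.GoalsB

/-!
# KS-SCA: an element of an antichain whose position is spread out
-/

namespace Pool.Agent.Helper74.KS

open Finset
open Pool.Agent.Helper75.KS
open Pool.Agent.Helper89.GP (LX po Ex Pr hh)

theorem sca (h1 : EhaStmt) (h2 : EhbStmt) : ScaStmt := by
  intro n R A hR hA hanti
  obtain ⟨f, hf, hfu, hfx⟩ := h2 n R hR
  obtain ⟨x, hxA, hx⟩ := A.exists_min_image (fun x => f (univ.erase x)) hA
  refine ⟨x, hxA, fun k => ?_⟩
  have key := h1 n R f hR hf univ A (mn R univ) (subset_univ _) hanti (Subset.refl _)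
    (fun a _ z hz _ => hz)
  have hne : (univ : Finset (Fin n)).Nonempty := ⟨x, mem_univ _⟩
  rw [← hf univ hne, hfu] at key
  have h3 : A.card * f (univ.erase x) ≤ ∑ y ∈ A, f (univ.erase y) := by
    have := Finset.card_nsmul_le_sum A (fun y => f (univ.erase y)) (f (univ.erase x)) hx
    simpa [smul_eq_mul] using this
  calc A.card * ((LX R).filter fun σ => po σ x = k).card
      ≤ A.card * f (univ.erase x) := Nat.mul_le_mul_left _ (hfx x k)
    _ ≤ ∑ y ∈ A, f (univ.erase y) := h3
    _ ≤ (LX R).card := key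

end Pool.Agent.Helper74.KS
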