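import Pool.Agent.Helper42.KS.Goals

set_option autoImplicit false

/-! Weak type (1,1) of the one-sided dyadic cube maximal function (packet W11). -/

namespace Pool.Agent.Helper42.KS.PkW11

open Finset

/-- floor division by powers of two in two steps -/
theorem ediv_two_pow (a : ℤ) (i k : ℕ) : a / (2 : ℤ) ^ (i + k) = a / (2 : ℤ) ^ i / (2 : ℤ) ^ k := by
  rw [pow_add, Int.ediv_ediv_of_nonneg (by positivity)]

theorem ediv_near (a b : ℤ) (k : ℕ) (h : |a - b| ≤ 1) :
    |a / (2 : ℤ) ^ k - b / (2 : ℤ) ^ k| ≤ 1 := by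
  have hp : (0 : ℤ) < 2 ^ k := by positivity
  have hp1 : (1 : ℤ) ≤ 2 ^ k := by omega
  rw [abs_le] at h ⊢
  have h1 : a / (2 : ℤ) ^ k ≤ b / (2 : ℤ) ^ k + 1 := by
    have : a ≤ b + 2 ^ k := by omega
    calc a / (2 : ℤ) ^ k ≤ (b + 2 ^ k) / 2 ^ k := Int.ediv_le_ediv hp this
      _ = b / (2 : ℤ) ^ k + 1 := by
        rw [Int.add_ediv_of_dvd_right (dvd_refl _), Int.ediv_self hp.ne']
  have h2 : b / (2 : ℤ) ^ k ≤ a / (2 : ℤ) ^ k + 1 := by
    have : b ≤ a + 2 ^ k := by omega
    calc b / (2 : ℤ) ^ k ≤ (a + 2 ^ k) / 2 ^ k := Int.ediv_le_ediv hp this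
      _ = a / (2 : ℤ) ^ k + 1 := by
        rw [Int.add_ediv_of_dvd_right (dvd_refl _), Int.ediv_self hp.ne']
  constructor <;> omega

/-- the part of `G` in the dyadic cube of level `j` with index `m` -/
noncomputable def cube {d : ℕ} (G : Finset (Fin d → ℤ)) (j : ℕ) (m : Fin d → ℤ) :
    Finset (Fin d → ℤ) := by
  classical exact G.filter (fun z => ∀ i, z i / (2 : ℤ) ^ j = m i)

theorem mem_cube {d : ℕ} {G : Finset (Fin d → ℤ)} {j : ℕ} {m z : Fin d → ℤ} :
    z ∈ cube G j m ↔ z ∈ G ∧ ∀ i, z i / (2 : ℤ) ^ j = m i := by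
  classical
  unfold cube
  rw [mem_filter]

/-- the covering lemma for dyadic cubes -/
theorem cover {d : ℕ} (s : ℝ) (hs : 0 < s) (g : (Fin d → ℤ) → ℝ) (hg : ∀ z, 0 ≤ g z)
    (jj : (Fin d → ℤ) → ℕ) (mm : (Fin d → ℤ) → (Fin d → ℤ)) (X : Finset (Fin d → ℤ)) :
    ∀ G : Finset (Fin d → ℤ),
    (∀ x ∈ X, ∀ i, |x i / (2 : ℤ) ^ (jj x) - mm x i| ≤ 1) →
    (∀ x ∈ X, s * (2 : ℝ) ^ (jj x * d) ≤ 2 ^ d * ∑ z ∈ cube G (jj x) (mm x), g z) →
    (X.card : ℝ) * s ≤ 6 ^ d * ∑ z ∈ G, g z := by
  classical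
  induction X using Finset.strongInduction with
  | H X ih =>
    intro G hnear hbig
    rcases X.eq_empty_or_nonempty with rfl | hne
    · simp only [card_empty, Nat.cast_zero, zero_mul]
      exact mul_nonneg (by positivity) (sum_nonneg fun z _ => hg z)
    obtain ⟨x0, hx0, hmax⟩ := exists_max_image X jj hne
    set j0 := jj x0 with hj0
    set m0 := mm x0 with hm0
    set X1 := X.filter (fun x => ∀ i, mm x i / (2 : ℤ) ^ (j0 - jj x) = m0 i) with hX1
    set X2 := X.filter (fun x => ¬ ∀ i, mm x i / (2 : ℤ) ^ (j0 - jj x) = m0 i) with hX2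
    set G1 := cube G j0 m0 with hG1
    set G2 := G \ G1 with hG2
    have hsub1 : G1 ⊆ G := fun z hz => (mem_cube.1 hz).1
    have hx01 : x0 ∈ X1 := by
      rw [hX1, mem_filter]
      refine ⟨hx0, fun i => ?_⟩
      rw [← hj0, Nat.sub_self, pow_zero, Int.ediv_one]
    have hX2s : X2 ⊂ X := by
      rw [hX2, Finset.ssubset_iff_of_subset (filter_subset _ _)]
      refine ⟨x0, hx0, ?_⟩
      intro h
      rw [mem_filter] at h
      rw [hX1, mem_filter] at hx01
      exact h.2 hx01.2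
    have hcard : (X.card : ℝ) = X1.card + X2.card := by
      have := Finset.card_filter_add_card_filter_not (s := X)
        (fun x => ∀ i, mm x i / (2 : ℤ) ^ (j0 - jj x) = m0 i)
      rw [← Nat.cast_add]
      exact_mod_cast this.symm
    have hsumG : ∑ z ∈ G, g z = ∑ z ∈ G1, g z + ∑ z ∈ G2, g z := by
      rw [hG2, add_comm]
      exact (Finset.sum_sdiff hsub1).symm
    -- the first part
    have hX1card : (X1.card : ℝ) ≤ 3 ^ d * 2 ^ (j0 * d) := by
      have hsubset : X1 ⊆ Fintype.piFinset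
          (fun i => Finset.Ico ((2 : ℤ) ^ j0 * (m0 i - 1)) ((2 : ℤ) ^ j0 * (m0 i + 2))) := by
        intro x hx
        rw [hX1, mem_filter] at hx
        obtain ⟨hxX, hxm⟩ := hx
        rw [Fintype.mem_piFinset]
        intro i
        have hle : jj x ≤ j0 := hmax x hxX
        have h1 := ediv_near _ _ (j0 - jj x) (hnear x hxX i)
        rw [← ediv_two_pow, Nat.add_sub_cancel' hle, hxm i] at h1
        have hp : (0 : ℤ) < 2 ^ j0 := by positivity
        rw [abs_le] at h1
        rw [mem_Ico]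
        have h2 := Int.mul_ediv_add_emod (x i) ((2 : ℤ) ^ j0)
        have h3 := Int.emod_nonneg (x i) hp.ne'
        have h4 := Int.emod_lt_of_pos (x i) hp
        constructor
        · nlinarith
        · nlinarith
      have := Finset.card_le_card hsubset
      rw [Fintype.card_piFinset] at this
      have hc : ∀ i : Fin d, (Finset.Ico ((2 : ℤ) ^ j0 * (m0 i - 1))
          ((2 : ℤ) ^ j0 * (m0 i + 2))).card = 3 * 2 ^ j0 := by
        intro i
        rw [Int.card_Ico]
        have : (2 : ℤ) ^ j0 * (m0 i + 2) - (2 : ℤ) ^ j0 * (m0 i - 1) = ((3 * 2 ^ j0 : ℕ) : ℤ) := by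
          push_cast; ring
        rw [this, Int.toNat_natCast]
      rw [Finset.prod_congr rfl (fun i _ => hc i), Finset.prod_const, Finset.card_univ,
        Fintype.card_fin, mul_pow, ← pow_mul] at this
      exact_mod_cast this
    have hpart1 : (X1.card : ℝ) * s ≤ 6 ^ d * ∑ z ∈ G1, g z := by
      have h1 := hbig x0 hx0
      rw [← hj0, ← hm0, ← hG1] at h1
      calc (X1.card : ℝ) * s ≤ (3 ^ d * 2 ^ (j0 * d)) * s :=
            mul_le_mul_of_nonneg_right hX1card hs.le
        _ = 3 ^ d * (s * 2 ^ (j0 * d)) := by ring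
        _ ≤ 3 ^ d * (2 ^ d * ∑ z ∈ G1, g z) := mul_le_mul_of_nonneg_left h1 (by positivity)
        _ = 6 ^ d * ∑ z ∈ G1, g z := by
            rw [← mul_assoc, ← mul_pow]; norm_num
    have hpart2 : (X2.card : ℝ) * s ≤ 6 ^ d * ∑ z ∈ G2, g z := by
      refine ih X2 hX2s G2 ?_ ?_
      · intro x hx i
        exact hnear x (hX2s.1 hx) i
      · intro x hx
        have hxX : x ∈ X := hX2s.1 hx
        have heq : cube G2 (jj x) (mm x) = cube G (jj x) (mm x) := by
          ext z
          rw [mem_cube, mem_cube, hG2, mem_sdiff]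
          constructor
          · rintro ⟨⟨h1, _⟩, h2⟩
            exact ⟨h1, h2⟩
          · rintro ⟨h1, h2⟩
            refine ⟨⟨h1, ?_⟩, h2⟩
            intro hz
            rw [hG1, mem_cube] at hz
            rw [hX2, mem_filter] at hx
            apply hx.2
            intro i
            have hle : jj x ≤ j0 := hmax x hxX
            rw [← h2 i, ← ediv_two_pow, Nat.add_sub_cancel' hle]
            exact hz.2 i
        rw [heq]
        exact hbig x hxX
    rw [hcard, hsumG]
    linarith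

theorem thm : G_W11 := by
  classical
  intro d
  refine ⟨6 ^ d, ?_⟩
  intro s G X g hs hg hG hX
  have key : ∀ x : Fin d → ℤ, x ∈ X → ∃ p : ℕ × (Fin d → ℤ),
      (∀ i, |x i / (2 : ℤ) ^ p.1 - p.2 i| ≤ 1) ∧
      s * (2 : ℝ) ^ (p.1 * d) ≤ 2 ^ d * ∑ z ∈ cube G p.1 p.2, g z := by
    intro x hx
    obtain ⟨j, hj⟩ := hX x hx
    by_contra hcon
    push Not at hcon
    set h : (Fin d → ℤ) → (Fin d → ℤ) := fun z i => x i / (2 : ℤ) ^ j - z i / (2 : ℤ) ^ j with hh
    set E : Finset (Fin d → ℤ) := Fintype.piFinset (fun _ => ({0, 1} : Finset ℤ)) with hE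
    have hEcard : E.card = 2 ^ d := by
      rw [hE, Fintype.card_piFinset]
      simp
    set B : Finset (Fin d → ℤ) := (box d (2 ^ j)).image (fun t => x - t) with hB
    have hpow : ((2 ^ j : ℕ) : ℤ) = (2 : ℤ) ^ j := by push_cast; rfl
    have hp : (0 : ℤ) < 2 ^ j := by positivity
    have hBsum : ∑ t ∈ box d (2 ^ j), g (x - t) = ∑ z ∈ B, g z := by
      rw [hB, Finset.sum_image]
      intro a _ b _ hab
      exact sub_right_injective hab
    have hBG : ∑ z ∈ B, g z = ∑ z ∈ B ∩ G, g z := by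
      symm
      apply Finset.sum_subset inter_subset_left
      intro z hz hz2
      apply hG
      intro hzG
      exact hz2 (mem_inter.2 ⟨hz, hzG⟩)
    have hmaps : ∀ z ∈ B ∩ G, h z ∈ E := by
      intro z hz
      rw [mem_inter, hB, mem_image] at hz
      obtain ⟨⟨t, ht, rfl⟩, _⟩ := hz
      rw [hE, Fintype.mem_piFinset]
      intro i
      unfold box at ht
      rw [Fintype.mem_piFinset] at ht
      have hti := ht i
      rw [mem_Ico, hpow] at hti
      have hz1 : (x - t) i = x i - t i := rfl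
      have e1 : h (x - t) i = x i / (2 : ℤ) ^ j - (x i - t i) / (2 : ℤ) ^ j := rfl
      rw [e1]
      have h1 : (x i - t i) / (2 : ℤ) ^ j ≤ x i / (2 : ℤ) ^ j :=
        Int.ediv_le_ediv hp (by omega)
      have h2 : x i / (2 : ℤ) ^ j - 1 ≤ (x i - t i) / (2 : ℤ) ^ j := by
        have : x i - 2 ^ j ≤ x i - t i := by omega
        calc x i / (2 : ℤ) ^ j - 1 = (x i - 2 ^ j) / (2 : ℤ) ^ j := by
              rw [Int.sub_ediv_of_dvd _ (dvd_refl _), Int.ediv_self hp.ne']
          _ ≤ (x i - t i) / (2 : ℤ) ^ j := Int.ediv_le_ediv hp this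
      rw [mem_insert, mem_singleton]
      omega
    have hfib := Finset.sum_fiberwise_of_maps_to hmaps g
    have hle : ∀ ε ∈ E, ∑ z ∈ (B ∩ G).filter (fun z => h z = ε), g z ≤
        ∑ z ∈ cube G j (fun i => x i / (2 : ℤ) ^ j - ε i), g z := by
      intro ε _
      apply Finset.sum_le_sum_of_subset_of_nonneg
      · intro z hz
        rw [mem_filter, mem_inter] at hz
        rw [mem_cube]
        refine ⟨hz.1.2, fun i => ?_⟩
        have := congrFun hz.2 i
        simp only [hh] at this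
        omega
      · intro z _ _
        exact hg z
    have hlt : ∀ ε ∈ E, 2 ^ d * ∑ z ∈ cube G j (fun i => x i / (2 : ℤ) ^ j - ε i), g z ≤
        s * (2 : ℝ) ^ (j * d) := by
      intro ε hε
      refine le_of_lt (hcon (j, fun i => x i / (2 : ℤ) ^ j - ε i) ?_)
      intro i
      rw [hE, Fintype.mem_piFinset] at hε
      have := hε i
      rw [mem_insert, mem_singleton] at this
      have e2 : x i / (2 : ℤ) ^ j - (x i / (2 : ℤ) ^ j - ε i) = ε i := by ring
      show |x i / (2 : ℤ) ^ j - (x i / (2 : ℤ) ^ j - ε i)| ≤ 1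
      rw [e2]
      rcases this with h0 | h0 <;> rw [h0] <;> norm_num
    have hfinal : 2 ^ d * ∑ t ∈ box d (2 ^ j), g (x - t) ≤ 2 ^ d * (s * (2 : ℝ) ^ (j * d)) := by
      rw [hBsum, hBG, ← hfib, Finset.mul_sum]
      calc ∑ ε ∈ E, 2 ^ d * ∑ z ∈ (B ∩ G).filter (fun z => h z = ε), g z
          ≤ ∑ ε ∈ E, s * (2 : ℝ) ^ (j * d) := by
            apply Finset.sum_le_sum
            intro ε hε
            exact le_trans (mul_le_mul_of_nonneg_left (hle ε hε) (by positivity)) (hlt ε hε)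
        _ = 2 ^ d * (s * (2 : ℝ) ^ (j * d)) := by
            rw [Finset.sum_const, hEcard, nsmul_eq_mul]
            push_cast
            ring
    have h2d : (0 : ℝ) < 2 ^ d := by positivity
    have := le_of_mul_le_mul_left hfinal h2d
    linarith
  choose! p hp1 hp2 using key
  exact cover s hs g hg (fun x => (p x).1) (fun x => (p x).2) X G hp1 hp2

end Pool.Agent.Helper42.KS.PkW11
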